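import Pool.Agent.H79.Thr.Conv

/-!
# Exhaustive search for star colourings of a small graph, up to the names of the colours
-/

set_option autoImplicit false

namespace Pool.Agent.H82.SF

open Pool.Agent.H79.Thr

/-- Adjacency in the graph whose edges are listed in `gl`, as a Boolean. -/
def adjB (gl : List (ℕ × ℕ)) (a b : ℕ) : Bool :=
  !(decide (a = b)) && (decide ((a, b) ∈ gl) || decide ((b, a) ∈ gl))

theorem adjB_iff {gl : List (ℕ × ℕ)} {a b : ℕ} : adjB gl a b = true ↔ (relG gl).Adj a b := by
  simp [adjB, relG]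

/-- The value of the vertex `i` in the list `l` of colours, the last vertex first. -/
def val (l : List ℕ) (i : ℕ) : ℕ := l.getD (l.length - 1 - i) 0

/-- The constraints for a vertex: the list of the smaller neighbours and the list of the paths on
four vertices. -/
abbrev Tab := List ℕ × List (ℕ × ℕ × ℕ × ℕ)

/-- The new vertex `l.length - 1` satisfies its constraints. -/
def okT (t : Tab) (l : List ℕ) : Bool :=
  t.1.all (fun i => !(decide (val l i = val l (l.length - 1)))) &&
    t.2.all (fun p => !(decide (val l p.1 = val l p.2.2.1) && decide (val l p.2.1 = val l p.2.2.2)))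

/-- All colourings that extend `l`, with the colours smaller than `mx` used before and the other
ones used in their order, satisfy `val 0 = val m`. -/
def ext (k m : ℕ) : List Tab → List ℕ → ℕ → Bool
  | [], l, _ => decide (val l 0 = val l m)
  | t :: ts, l, mx =>
    (List.range (min k (mx + 1))).all fun c =>
      !(okT t (c :: l)) || ext k m ts (c :: l) (max mx (c + 1))

/-- The table is correct for the vertex `j`. -/
def tabB (gl : List (ℕ × ℕ)) (j : ℕ) (t : Tab) : Bool :=
  t.1.all (fun i => decide (i < j) && adjB gl i j) &&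
    t.2.all (fun p => (decide (p.1 ≤ j) && decide (p.2.1 ≤ j) && decide (p.2.2.1 ≤ j) &&
      decide (p.2.2.2 ≤ j)) && (adjB gl p.1 p.2.1 && adjB gl p.2.1 p.2.2.1 &&
      adjB gl p.2.2.1 p.2.2.2) && (decide (p.1 ≠ p.2.2.1) && decide (p.1 ≠ p.2.2.2) &&
      decide (p.2.1 ≠ p.2.2.2)))

/-- The tables are correct for the vertices `j`, `j + 1`, .... -/
def tabsB (gl : List (ℕ × ℕ)) : ℕ → List Tab → Bool
  | _, [] => true
  | j, t :: ts => tabB gl j t && tabsB gl (j + 1) ts

/-- The colouring `g` satisfies the constraints of a star colouring. -/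
def Star' (gl : List (ℕ × ℕ)) (g : ℕ → ℕ) : Prop :=
  (∀ a b, (relG gl).Adj a b → g a ≠ g b) ∧
    ∀ a b c d, (relG gl).Adj a b → (relG gl).Adj b c → (relG gl).Adj c d → a ≠ c → a ≠ d → b ≠ d →
      ¬ (g a = g c ∧ g b = g d)

theorem Star'.comp {gl : List (ℕ × ℕ)} {g : ℕ → ℕ} (h : Star' gl g) {σ : ℕ → ℕ}
    (hσ : Function.Injective σ) : Star' gl (fun i => σ (g i)) := by
  refine ⟨fun a b hab he => h.1 a b hab (hσ he), ?_⟩
  rintro a b c d h1 h2 h3 h4 h5 h6 ⟨h7, h8⟩
  exact h.2 a b c d h1 h2 h3 h4 h5 h6 ⟨hσ h7, hσ h8⟩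

theorem star'_of_isStar {gl : List (ℕ × ℕ)} {k : ℕ} {g : ℕ → Fin k} (h : IsStar (relG gl) g) :
    Star' gl (fun i => (g i).val) := by
  refine ⟨fun a b hab he => h.1 a b hab (Fin.ext he), ?_⟩
  rintro a b c d h1 h2 h3 h4 h5 h6 ⟨h7, h8⟩
  have h9 := h.2 a b c d h1 h2 h3 h4 h5 h6
  rw [Fin.ext h7, Fin.ext h8] at h9
  have h10 : ({g c, g d, g c, g d} : Finset (Fin k)) = {g c, g d} := by
    ext x
    simp only [Finset.mem_insert, Finset.mem_singleton]
    tauto
  rw [h10] at h9
  have := Finset.card_le_two (a := g c) (b := g d)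
  omega

/-- The list `l` contains the colours of the vertices `0, …, l.length - 1`. -/
def Agr (g : ℕ → ℕ) (l : List ℕ) : Prop := ∀ i < l.length, val l i = g i

theorem Agr.cons {g : ℕ → ℕ} {l : List ℕ} (h : Agr g l) : Agr g (g l.length :: l) := by
  intro i hi
  rw [List.length_cons] at hi
  unfold val
  rw [List.length_cons]
  by_cases h1 : i = l.length
  · subst h1
    simp
  · have h2 : l.length + 1 - 1 - i = (l.length - 1 - i) + 1 := by omega
    rw [h2, List.getD_cons_succ]
    exact h i (by omega)

theorem Agr.congr {g g' : ℕ → ℕ} {l : List ℕ} (h : Agr g l)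
    (hg : ∀ i < l.length, g' i = g i) : Agr g' l := fun i hi => (h i hi).trans (hg i hi).symm

theorem okT_of {gl : List (ℕ × ℕ)} {g : ℕ → ℕ} (hg : Star' gl g) {t : Tab} {l : List ℕ}
    (ht : tabB gl l.length t = true) (hl : Agr g l) : okT t (g l.length :: l) = true := by
  have hl' := hl.cons
  have hv : ∀ i, i ≤ l.length → val (g l.length :: l) i = g i := fun i hi =>
    hl' i (by rw [List.length_cons]; omega)
  unfold tabB at ht
  rw [Bool.and_eq_true, List.all_eq_true, List.all_eq_true] at ht
  unfold okT
  rw [Bool.and_eq_true, List.all_eq_true, List.all_eq_true]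
  constructor
  · intro i hi
    have h1 := ht.1 i hi
    rw [Bool.and_eq_true, decide_eq_true_iff, adjB_iff] at h1
    have h2 : (g l.length :: l).length - 1 = l.length := by simp
    rw [h2, hv i h1.1.le, hv _ le_rfl]
    simpa using hg.1 _ _ h1.2
  · intro p hp
    have h1 := ht.2 p hp
    simp only [Bool.and_eq_true, decide_eq_true_iff, adjB_iff] at h1
    obtain ⟨⟨⟨⟨⟨a1, a2⟩, a3⟩, a4⟩, ⟨b1, b2⟩, b3⟩, ⟨c1, c2⟩, c3⟩ := h1
    rw [hv _ a1, hv _ a2, hv _ a3, hv _ a4]
    have h2 := hg.2 _ _ _ _ b1 b2 b3 c1 c2 c3
    rw [Bool.not_eq_true']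
    by_contra h3
    rw [Bool.not_eq_false, Bool.and_eq_true, decide_eq_true_iff, decide_eq_true_iff] at h3
    exact h2 h3

theorem ext_sound {gl : List (ℕ × ℕ)} {k m : ℕ} (ts : List Tab) :
    ∀ (l : List ℕ) (mx : ℕ), tabsB gl l.length ts = true → ext k m ts l mx = true →
      l.length + ts.length = m + 1 → (∀ c ∈ l, c < mx) → mx ≤ k →
      ∀ g : ℕ → ℕ, Star' gl g → (∀ i, g i < k) → Agr g l → g 0 = g m := by
  induction ts with
  | nil =>
    intro l mx _ h hlen _ _ g _ _ hl
    simp only [List.length_nil, Nat.add_zero] at hlen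
    unfold ext at h
    rw [decide_eq_true_iff, hl 0 (by omega), hl m (by omega)] at h
    exact h
  | cons t ts ih =>
    intro l mx ht h hlen hmx hmk g hg hgk hl
    unfold tabsB at ht
    rw [Bool.and_eq_true] at ht
    unfold ext at h
    rw [List.all_eq_true] at h
    rw [List.length_cons] at hlen
    -- the case that the new colour is at most `mx`
    have key : ∀ g : ℕ → ℕ, Star' gl g → (∀ i, g i < k) → Agr g l → g l.length ≤ mx →
        g 0 = g m := by
      intro g hg hgk hl hle
      have h1 := h (g l.length) (by rw [List.mem_range]; have := hgk l.length; omega)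
      have h2 := okT_of hg ht.1 hl
      rw [h2] at h1
      simp only [Bool.not_true, Bool.false_or] at h1
      refine ih (g l.length :: l) _ (by rw [List.length_cons]; exact ht.2) h1
        (by rw [List.length_cons]; omega) ?_ ?_ g hg hgk hl.cons
      · intro c hc
        rcases List.mem_cons.1 hc with rfl | hc
        · exact lt_of_lt_of_le (Nat.lt_succ_self _) (le_max_right _ _)
        · exact lt_of_lt_of_le (hmx c hc) (le_max_left _ _)
      · have := hgk l.length
        omega
    by_cases hc : g l.length ≤ mx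
    · exact key g hg hgk hl hc
    · push Not at hc
      obtain ⟨σ, hσ⟩ : ∃ σ : Equiv.Perm ℕ, σ = Equiv.swap (g l.length) mx := ⟨_, rfl⟩
      have h1 : ∀ i < l.length, σ (g i) = g i := by
        intro i hi
        have h2 : g i < mx := by
          rw [← hl i hi]
          apply hmx
          unfold val
          rw [List.getD_eq_getElem _ _ (by omega)]
          exact List.getElem_mem _
        rw [hσ]
        exact Equiv.swap_apply_of_ne_of_ne (by omega) (by omega)
      have h3 : σ (g l.length) = mx := by rw [hσ, Equiv.swap_apply_left]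
      have hmk' : mx < k := hc.trans (hgk _)
      have h4 : ∀ i, σ (g i) < k := by
        intro i
        by_cases h5 : g i = g l.length
        · rw [h5, h3]
          exact hmk'
        · by_cases h6 : g i = mx
          · rw [h6, hσ, Equiv.swap_apply_right]
            exact hgk _
          · rw [hσ, Equiv.swap_apply_of_ne_of_ne h5 h6]
            exact hgk i
      have h7 := key (fun i => σ (g i)) (hg.comp σ.injective) h4 (hl.congr h1)
        (by simp only [h3]; exact le_rfl)
      exact σ.injective h7

/-- **The search is exhaustive.** -/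
theorem uniq_of_ext {gl : List (ℕ × ℕ)} {k m : ℕ} {ts : List Tab} (hlen : ts.length = m + 1)
    (ht : tabsB gl 0 ts = true) (h : ext k m ts [] 0 = true) {g : ℕ → Fin k}
    (hg : IsStar (relG gl) g) : g 0 = g m := by
  have := ext_sound (gl := gl) ts [] 0 ht h (by simpa using hlen) (by simp) (Nat.zero_le _)
    (fun i => (g i).val) (star'_of_isStar hg) (fun i => (g i).isLt)
    (fun i hi => absurd hi (by simp))
  exact Fin.ext this

end Pool.Agent.H82.SF
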