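import Pool.Agent.H82.SF.RedC
import Pool.Agent.H82.SF.Search

/-!
# The equality gadget for star 4-colourings of cubic graphs

Vertices `0, …, 8`; the terminals `0` and `8` have degree one. In every star `4`-colouring the
terminals have the same colour.
-/

set_option autoImplicit false

namespace Pool.Agent.H82.SF

open Pool.Agent.H79.Thr

/-- The edges of the gadget. -/
def gq : List (ℕ × ℕ) :=
  [(0, 1), (1, 2), (1, 3), (2, 4), (3, 4), (2, 5), (3, 6), (5, 6), (5, 7), (6, 7), (4, 8)]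

/-- The neighbours. -/
def nq : ℕ → List ℕ
  | 0 => [1]
  | 1 => [0, 2, 3]
  | 2 => [1, 4, 5]
  | 3 => [1, 4, 6]
  | 4 => [2, 3, 8]
  | 5 => [2, 6, 7]
  | 6 => [3, 5, 7]
  | 7 => [5, 6]
  | 8 => [4]
  | _ => []

/-- A star colouring of the gadget. -/
def bq : ℕ → Fin 4
  | 0 => 0
  | 1 => 1
  | 2 => 2
  | 3 => 3
  | 4 => 1
  | 5 => 0
  | 6 => 1
  | 7 => 2
  | _ => 0

/-- The star colourings of the gadget. -/
def fq (c : Fin 4) (i : ℕ) : Fin 4 := bq i + c

/-- The constraints. -/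
def tq : List Tab :=
  [([], []),
    ([0], []),
    ([1], []),
    ([1], []),
    ([2, 3], [(0, 1, 2, 4), (0, 1, 3, 4), (1, 2, 4, 3), (1, 3, 4, 2), (2, 1, 3, 4), (3, 1, 2, 4)]),
    ([2], [(0, 1, 2, 5), (3, 1, 2, 5), (3, 4, 2, 5)]),
    ([3, 5], [(0, 1, 3, 6), (1, 2, 5, 6), (1, 3, 6, 5), (2, 1, 3, 6), (2, 4, 3, 6), (2, 5, 6, 3), (4, 2, 5, 6), (4, 3, 6, 5)]),
    ([5, 6], [(1, 2, 5, 7), (1, 3, 6, 7), (2, 5, 6, 7), (2, 5, 7, 6), (3, 6, 5, 7), (3, 6, 7, 5), (4, 2, 5, 7), (4, 3, 6, 7)]),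
    ([4], [(1, 2, 4, 8), (1, 3, 4, 8), (5, 2, 4, 8), (6, 3, 4, 8)])]

theorem tq_ok : tabsB gq 0 tq = true := by decide

theorem tq_ext : ext 4 8 tq [] 0 = true := by decide

theorem mem_nq {a b : ℕ} (h : (relG gq).Adj a b) : b ∈ nq a := by
  have h1 : gq.all (fun e => decide (e.2 ∈ nq e.1) && decide (e.1 ∈ nq e.2)) = true := by decide
  rw [List.all_eq_true] at h1
  have h2 : (a, b) ∈ gq ∨ (b, a) ∈ gq := by
    have h3 := adjB_iff.2 h
    unfold adjB at h3
    simp only [Bool.and_eq_true, Bool.or_eq_true, decide_eq_true_iff] at h3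
    exact h3.2
  rcases h2 with h2 | h2
  · have h3 := h1 _ h2
    rw [Bool.and_eq_true, decide_eq_true_iff, decide_eq_true_iff] at h3
    exact h3.1
  · have h3 := h1 _ h2
    rw [Bool.and_eq_true, decide_eq_true_iff, decide_eq_true_iff] at h3
    exact h3.2

theorem nq_lt {a b : ℕ} (h : b ∈ nq a) : a < 9 := by
  by_contra h1
  obtain ⟨n, rfl⟩ : ∃ n, a = n + 9 := ⟨a - 9, by omega⟩
  have h2 : nq (n + 9) = [] := rfl
  rw [h2] at h
  exact absurd h (by simp)

theorem nq_len (a : ℕ) : (nq a).length ≤ 3 := by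
  by_cases h : a < 9
  · have h1 : ∀ a < 9, (nq a).length ≤ 3 := by decide
    exact h1 a h
  · obtain ⟨n, rfl⟩ : ∃ n, a = n + 9 := ⟨a - 9, by omega⟩
    have h2 : nq (n + 9) = [] := rfl
    rw [h2]
    simp

theorem nq_ncard (a : ℕ) : ((relG gq).neighborSet a).ncard ≤ (nq a).length := by
  classical
  have h1 : (relG gq).neighborSet a ⊆ ((nq a).toFinset : Set ℕ) := by
    intro b hb
    simpa using mem_nq hb
  refine (Set.ncard_le_ncard h1 (Finset.finite_toSet _)).trans ?_
  rw [Set.ncard_coe_finset]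
  exact List.toFinset_card_le _

/-- The Boolean check of the star colourings. -/
def ckq (c : Fin 4) : Bool :=
  (List.range 9).all fun a => (nq a).all fun b => !(decide (fq c a = fq c b)) &&
    (nq b).all fun d => (nq d).all fun e => decide (a = d) || decide (a = e) || decide (b = e) ||
      !(decide (fq c a = fq c d) && decide (fq c b = fq c e))

theorem ckq_ok : ∀ c, ckq c = true := by decide

theorem fq_star (c : Fin 4) : IsStar (relG gq) (fq c) := by
  have h0 := ckq_ok c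
  unfold ckq at h0
  rw [List.all_eq_true] at h0
  have hp : ∀ a b, (relG gq).Adj a b → fq c a ≠ fq c b := by
    intro a b hab
    have h1 := mem_nq hab
    have h2 := h0 a (List.mem_range.2 (nq_lt h1))
    rw [List.all_eq_true] at h2
    have h3 := h2 b h1
    rw [Bool.and_eq_true] at h3
    simpa using h3.1
  refine ⟨hp, ?_⟩
  intro a b d e hab hbd hde had hae hbe
  by_contra hcard
  obtain ⟨e1, e2⟩ := alt_of_card (hp a b hab) (hp b d hbd) (hp d e hde) hcard
  have h1 := mem_nq hab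
  have h2 := h0 a (List.mem_range.2 (nq_lt h1))
  rw [List.all_eq_true] at h2
  have h3 := h2 b h1
  rw [Bool.and_eq_true, List.all_eq_true] at h3
  have h4 := h3.2 d (mem_nq hbd)
  rw [List.all_eq_true] at h4
  have h5 := h4 e (mem_nq hde)
  simp [had, hae, hbe, e1, e2] at h5

/-- **The gadget.** -/
theorem gq_gadget : EqG 4 3 8 gq fq where
  pos := by norm_num
  deg x _ _ := (nq_ncard x).trans (nq_len x)
  deg0 := by
    have h1 := nq_ncard 0
    have h2 := nq_ncard 8
    have h3 : (nq 0).length = 1 := rfl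
    have h4 : (nq 8).length = 1 := rfl
    omega
  uniq g hg := uniq_of_ext (by decide) tq_ok tq_ext hg
  star := fq_star
  zero c := by
    show (0 : Fin 4) + c = c
    rw [zero_add]
  last c := by
    show (0 : Fin 4) + c = c
    rw [zero_add]
  A := by
    intro c t ht x w htx hxw hwt
    have h1 := mem_nq htx
    have h2 := mem_nq hxw
    have key : ∀ c : Fin 4, ∀ t ∈ [0, 8], ∀ x ∈ nq t, ∀ w ∈ nq x, w ≠ t → fq c w ≠ c := by
      decide
    exact key c t (by simpa using ht) x h1 w h2 hwt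
  B := by
    intro c c' _ t t' ht ht' x x' h1 h2 h3
    have h1 := mem_nq h1
    have h2 := mem_nq h2
    have key : ∀ c c' : Fin 4, ∀ t ∈ [0, 8], ∀ t' ∈ [0, 8], ∀ x ∈ nq t, ∀ x' ∈ nq t',
        fq c x = c' → fq c' x' ≠ c := by
      decide
    exact key c c' t (by simpa using ht) t' (by simpa using ht') x h1 x' h2 h3

/-- Star 4-colourability of graphs of maximum degree at most `d`, `d ≥ 3`, is NP-complete. -/
theorem npc_star4 {d : ℕ} (hd : 3 ≤ d) : NPCompleteOn d (fun _ G => StarColourable 4 G) :=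
  npc_of_gadget (by norm_num) gq_gadget hd

end Pool.Agent.H82.SF
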