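import Pool.Agent.H82.SF.RedC
import Pool.Agent.H23.RS.NotNP

/-!
# Graphs of maximum degree at most two are star 4-colourable
-/

set_option autoImplicit false

namespace Pool.Agent.H82.SF

open Pool.Agent.H79.Thr

variable {V : Type}

private theorem low_three (a b : Fin 3) : ∃ c : Fin 3, c ≠ a ∧ c ≠ b := by
  revert a b
  decide

/-- Star 3-colourings of the subgraph induced by `T`, if every nonempty subset of `T` induces a
subgraph with a vertex of degree at most one. -/
theorem low_ext [Finite V] {G : SimpleGraph V} (hG : MaxDegLE G 2) (T : Finset V) :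
    (∀ W : Finset V, W ⊆ T → W.Nonempty →
      ∃ v ∈ W, ∀ a ∈ W, ∀ b ∈ W, G.Adj v a → G.Adj v b → a = b) →
    ∃ f : V → Fin 3, (∀ a ∈ T, ∀ b ∈ T, G.Adj a b → f a ≠ f b) ∧
      ∀ a ∈ T, ∀ b ∈ T, ∀ c ∈ T, ∀ d ∈ T, G.Adj a b → G.Adj b c → G.Adj c d → a ≠ c → a ≠ d →
        b ≠ d → ¬ (f a = f c ∧ f b = f d) := by
  classical
  induction T using Finset.strongInduction with
  | H T ih =>
    intro hT
    rcases T.eq_empty_or_nonempty with rfl | hne
    · exact ⟨fun _ => 0, fun a ha => absurd ha (by simp), fun a ha => absurd ha (by simp)⟩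
    obtain ⟨v, hv, huniq⟩ := hT T (Finset.Subset.refl _) hne
    obtain ⟨f, hf1, hf2⟩ := ih (T.erase v) (Finset.erase_ssubset hv)
      (fun W hW hWn => hT W (hW.trans (Finset.erase_subset _ _)) hWn)
    -- the new colour
    have hcol : ∃ c : Fin 3, (∀ u ∈ T.erase v, G.Adj v u → c ≠ f u) ∧
        ∀ u ∈ T.erase v, ∀ w ∈ T.erase v, G.Adj v u → G.Adj u w → c ≠ f w := by
      by_cases hu : ∃ u ∈ T.erase v, G.Adj v u
      · obtain ⟨u, huT, huv⟩ := hu
        have hu1 : ∀ u' ∈ T.erase v, G.Adj v u' → u' = u := fun u' hu' h' =>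
          huniq u' (Finset.mem_of_mem_erase hu') u (Finset.mem_of_mem_erase huT) h' huv
        by_cases hw : ∃ w ∈ T.erase v, G.Adj u w
        · obtain ⟨w, hwT, huw⟩ := hw
          have hw1 : ∀ w' ∈ T.erase v, G.Adj u w' → w' = w := by
            intro w' hw' h'
            by_contra hne'
            have h3 : ({v, w, w'} : Set V) ⊆ G.neighborSet u := by
              rintro x (rfl | rfl | rfl)
              · exact huv.symm
              · exact huw
              · exact h'
            have h4 : ({v, w, w'} : Set V).ncard = 3 := by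
              rw [Set.ncard_eq_three]
              exact ⟨v, w, w', (Finset.ne_of_mem_erase hwT).symm,
                (Finset.ne_of_mem_erase hw').symm, fun h => hne' h.symm, rfl⟩
            have h5 := Set.ncard_le_ncard h3 (hG u).1
            have h6 := (hG u).2
            omega
          obtain ⟨c, hc1, hc2⟩ := low_three (f u) (f w)
          refine ⟨c, fun u' hu' h' => ?_, fun u' hu' w' hw' h1 h2 => ?_⟩
          · rw [hu1 u' hu' h']
            exact hc1
          · rw [hu1 u' hu' h1] at h2
            rw [hw1 w' hw' h2]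
            exact hc2
        · obtain ⟨c, hc1, -⟩ := low_three (f u) (f u)
          refine ⟨c, fun u' hu' h' => ?_, fun u' hu' w' hw' h1 h2 => ?_⟩
          · rw [hu1 u' hu' h']
            exact hc1
          · rw [hu1 u' hu' h1] at h2
            exact absurd ⟨w', hw', h2⟩ hw
      · exact ⟨0, fun u hu' h' => absurd ⟨u, hu', h'⟩ hu,
          fun u hu' w _ h1 _ => absurd ⟨u, hu', h1⟩ hu⟩
    obtain ⟨c, hc1, hc2⟩ := hcol
    have hme : ∀ x ∈ T, x ≠ v → x ∈ T.erase v := fun x hx hxv => Finset.mem_erase.2 ⟨hxv, hx⟩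
    have hgv : Function.update f v c v = c := Function.update_self _ _ _
    have hgn : ∀ x, x ≠ v → Function.update f v c x = f x := fun x hx =>
      Function.update_of_ne hx _ _
    refine ⟨Function.update f v c, ?_, ?_⟩
    · intro a ha b hb hab
      by_cases hav : a = v
      · subst hav
        rw [hgv, hgn b hab.ne']
        exact hc1 b (hme b hb hab.ne') hab
      · by_cases hbv : b = v
        · subst hbv
          rw [hgv, hgn a hav]
          exact (hc1 a (hme a ha hav) hab.symm).symm
        · rw [hgn a hav, hgn b hbv]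
          exact hf1 a (hme a ha hav) b (hme b hb hbv) hab
    · intro a ha b hb d hd e he hab hbd hde had hae hbe
      by_cases hbv : b = v
      · subst hbv
        exact absurd (huniq a ha d hd hab.symm hbd) had
      by_cases hdv : d = v
      · subst hdv
        exact absurd (huniq b hb e he hbd.symm hde) hbe
      by_cases hav : a = v
      · subst hav
        rw [hgv, hgn d had.symm]
        rintro ⟨h1, -⟩
        exact hc2 b (hme b hb hbv) d (hme d hd hdv) hab hbd h1
      by_cases hev : e = v
      · subst hev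
        rw [hgv, hgn b hbe]
        rintro ⟨-, h1⟩
        exact hc2 d (hme d hd hdv) b (hme b hb hbv) hde.symm hbd.symm h1.symm
      rw [hgn a hav, hgn b hbv, hgn d hdv, hgn e hev]
      exact hf2 a (hme a ha hav) b (hme b hb hbv) d (hme d hd hdv) e (hme e he hev) hab hbd hde
        had hae hbe

/-- Every finite graph of maximum degree at most two is star 4-colourable. -/
theorem star4_of_deg2 [Finite V] {G : SimpleGraph V} (hG : MaxDegLE G 2) :
    StarColourable 4 G := by
  classical
  have := Fintype.ofFinite V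
  obtain ⟨rep, hrep⟩ : ∃ rep : V → V, rep = fun v => (G.connectedComponentMk v).out := ⟨_, rfl⟩
  have hr1 : ∀ v, G.connectedComponentMk (rep v) = G.connectedComponentMk v := by
    intro v
    rw [hrep]
    exact Quot.out_eq (G.connectedComponentMk v)
  have hr2 : ∀ v w, G.connectedComponentMk v = G.connectedComponentMk w → rep v = rep w := by
    intro v w h
    rw [hrep]
    show (G.connectedComponentMk v).out = (G.connectedComponentMk w).out
    rw [h]
  have hS : ∀ a b, rep a = a → rep b = b → G.Reachable a b → a = b := by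
    intro a b ha hb hab
    have h1 := hr2 a b (SimpleGraph.ConnectedComponent.eq.2 hab)
    rw [ha, hb] at h1
    exact h1
  obtain ⟨f, hf1, hf2⟩ := low_ext hG (Finset.univ.filter fun v => rep v ≠ v) (by
    intro W hW hWn
    by_contra hcon
    push Not at hcon
    have hcl : ∀ v ∈ W, ∀ u, G.Adj v u → u ∈ W := by
      intro v hv u hu
      obtain ⟨a, ha, b, hb, hva, hvb, hab⟩ := hcon v hv
      by_contra huW
      have h3 : ({u, a, b} : Set V) ⊆ G.neighborSet v := by
        rintro x (rfl | rfl | rfl)
        · exact hu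
        · exact hva
        · exact hvb
      have h4 : ({u, a, b} : Set V).ncard = 3 := by
        rw [Set.ncard_eq_three]
        exact ⟨u, a, b, fun h => huW (h ▸ ha), fun h => huW (h ▸ hb), hab, rfl⟩
      have h5 := Set.ncard_le_ncard h3 (hG v).1
      have h6 := (hG v).2
      omega
    obtain ⟨w, hw⟩ := hWn
    have hreach : ∀ u, G.Reachable w u → u ∈ W := by
      rintro u ⟨p⟩
      have hp : ∀ (x y : V) (q : G.Walk x y), x ∈ W → y ∈ W := by
        intro x y q
        induction q with
        | nil => exact fun h => h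
        | cons hadj _ ih => exact fun h => ih (hcl _ h _ hadj)
      exact hp w u p hw
    have h1 : rep w ∈ W := hreach _ (SimpleGraph.ConnectedComponent.exact (hr1 w).symm)
    have h2 := hW h1
    rw [Finset.mem_filter] at h2
    exact h2.2 (hr2 _ _ (hr1 w)))
  have hmem : ∀ v, rep v ≠ v → v ∈ Finset.univ.filter fun v => rep v ≠ v := fun v hv =>
    Finset.mem_filter.2 ⟨Finset.mem_univ _, hv⟩
  obtain ⟨g, hgdef⟩ : ∃ g : V → Fin 4, g = fun v => if rep v = v then 3 else (f v).castSucc :=
    ⟨_, rfl⟩
  have hg1 : ∀ v, rep v = v → g v = 3 := by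
    intro v hv
    rw [hgdef]
    exact if_pos hv
  have hg2 : ∀ v, rep v ≠ v → g v = (f v).castSucc := by
    intro v hv
    rw [hgdef]
    exact if_neg hv
  have h3 : ∀ x : Fin 3, x.castSucc ≠ (3 : Fin 4) := by decide
  have hg3 : ∀ v w, rep v = v → g v = g w → rep w = w := by
    intro v w hv h
    by_contra hw
    rw [hg1 v hv, hg2 w hw] at h
    exact h3 _ h.symm
  have hg4 : ∀ v w, rep v ≠ v → g v = g w → rep w ≠ w ∧ f v = f w := by
    intro v w hv h
    have h4 : rep w ≠ w := fun hw => hv (hg3 w v hw h.symm)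
    rw [hg2 v hv, hg2 w h4] at h
    exact ⟨h4, Fin.castSucc_injective _ h⟩
  have hprop : IsCol G g := by
    intro a b hab h
    by_cases ha : rep a = a
    · exact hab.ne (hS a b ha (hg3 a b ha h) hab.reachable)
    · obtain ⟨hb, h4⟩ := hg4 a b ha h
      exact hf1 a (hmem a ha) b (hmem b hb) hab h4
  refine ⟨g, hprop, ?_⟩
  intro a b c d hab hbc hcd hac had hbd
  by_contra hcard
  obtain ⟨e1, e2⟩ := alt_of_card (hprop a b hab) (hprop b c hbc) (hprop c d hcd) hcard
  by_cases ha : rep a = a
  · exact hac (hS a c ha (hg3 a c ha e1) (hab.reachable.trans hbc.reachable))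
  by_cases hb : rep b = b
  · exact hbd (hS b d hb (hg3 b d hb e2) (hbc.reachable.trans hcd.reachable))
  obtain ⟨hc, h5⟩ := hg4 a c ha e1
  obtain ⟨hd, h6⟩ := hg4 b d hb e2
  exact hf2 a (hmem a ha) b (hmem b hb) c (hmem c hc) d (hmem d hd) hab hbc hcd hac had hbd
    ⟨h5, h6⟩

/-- Star 4-colourability of graphs of maximum degree at most two is not NP-complete. -/
theorem not_npc_star4 {d : ℕ} (hd : d ≤ 2) : ¬ NPCompleteOn d (fun _ G => StarColourable 4 G) :=
  Pool.Agent.H23.RS.not_npComplete fun _ _ hG =>
    star4_of_deg2 fun v => ⟨(hG v).1, (hG v).2.trans hd⟩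

end Pool.Agent.H82.SF
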