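import Pool.Agent.H79.Thr.StarRed
import Pool.Agent.H79.Thr.Member
import Pool.Agent.H79.Thr.ColK

/-!
# The reduction of `k`-colourability to star `k`-colourability with equality gadgets

The gadget is the graph `relG gl` on the vertices `0, …, m`; in every star `k`-colouring its two
terminals `0` and `m` have the same colour.
-/

set_option autoImplicit false

namespace Pool.Agent.H82.SF

open Pool.Agent.PPS Pool.Agent.H64.Cook Pool.Agent.H79.Thr

/-- An equality gadget for star `k`-colourings, for graphs of maximum degree `D`. -/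
structure EqG (k D m : ℕ) (gl : List (ℕ × ℕ)) (F : Fin k → ℕ → Fin k) : Prop where
  pos : 0 < m
  deg : ∀ x, x ≠ 0 → x ≠ m → ((relG gl).neighborSet x).ncard ≤ D
  deg0 : ((relG gl).neighborSet 0).ncard + ((relG gl).neighborSet m).ncard + 1 ≤ D
  uniq : ∀ g : ℕ → Fin k, IsStar (relG gl) g → g 0 = g m
  star : ∀ c, IsStar (relG gl) (F c)
  zero : ∀ c, F c 0 = c
  last : ∀ c, F c m = c
  A : ∀ c t, t = 0 ∨ t = m → ∀ x w, (relG gl).Adj t x → (relG gl).Adj x w → w ≠ t → F c w ≠ c
  B : ∀ c c', c ≠ c' → ∀ t t', (t = 0 ∨ t = m) → (t' = 0 ∨ t' = m) → ∀ x x',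
    (relG gl).Adj t x → (relG gl).Adj t' x' → F c x = c' → F c' x' ≠ c

section

variable {α : Type} {k D m : ℕ} {gl : List (ℕ × ℕ)} {F : Fin k → ℕ → Fin k}

/-- The vertices of the big graph: `(v, i, x)` is the vertex `x` of the copy number `i` of the gadget
at `v`. -/
abbrev FE (α : Type) := α × (ℕ × ℕ)

/-- The vertex `m` of the copy number `i` is identified with the vertex `0` of the copy number
`i + 1`. -/
def nfE (m : ℕ) (v : α) (i : ℕ) (x : ℕ) : FE α :=
  if x = m then (v, i + 1, 0) else (v, i, x)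

/-- The list of the edges of the big graph. -/
def bigE [Inhabited α] (gl : List (ℕ × ℕ)) (m : ℕ) (E : List (α × α)) : List (FE α × FE α) :=
  (E.flatMap fun e => [e.1, e.2]).flatMap (fun v =>
    (List.range E.length).flatMap fun i => gl.map fun z => (nfE m v i z.1, nfE m v i z.2)) ++
  (List.range E.length).map fun i =>
    (((E.getD i default).1, i, 0), ((E.getD i default).2, i, 0))

theorem PT.nfE' [Rep α] {b : Bool} {β : Type} [Rep β] (m x : ℕ) {v : β → α} {i : β → ℕ}
    (hv : PT b v) (hi : PT b i) : PT b (fun a => nfE m (v a) (i a) x) := by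
  unfold nfE
  split_ifs <;> fun_prop

theorem PT.bigE' [Inhabited α] [Rep α] {b : Bool} {β : Type} [Rep β] (gl : List (ℕ × ℕ)) (m : ℕ)
    {E : β → List (α × α)} (h : PT b E) : PT b (fun a => bigE gl m (E a)) := by
  unfold bigE
  refine PT.append' ?_ ?_
  · refine Pool.Agent.H64.Cook.PT.flatMap' (m := b) (l := fun a => (E a).flatMap fun e => [e.1, e.2])
      (f := fun z : β × α => (List.range (E z.1).length).flatMap fun i =>
        gl.map fun w => (nfE m z.2 i w.1, nfE m z.2 i w.2)) ?_ ?_
    · exact Pool.Agent.H64.Cook.PT.flatMap' (m := b) (l := E)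
        (f := fun z : β × (α × α) => [z.2.1, z.2.2]) h (by fun_prop)
    · refine Pool.Agent.H64.Cook.PT.flatMap' (m := b) (l := fun z : β × α => List.range (E z.1).length)
        (f := fun z : (β × α) × ℕ =>
          gl.map fun w => (nfE m z.1.2 z.2 w.1, nfE m z.1.2 z.2 w.2)) ?_ ?_
      · have : PT b (fun z : β × α => E z.1) := h.comp' PT.fst
        fun_prop
      · have := Pool.Agent.H64.Cook.PT.flatMapConst (m := b) gl
          (f := fun w (z : (β × α) × ℕ) => [(nfE m z.1.2 z.2 w.1, nfE m z.1.2 z.2 w.2)])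
          (fun w => by
            have h1 : PT b (fun z : (β × α) × ℕ => nfE m z.1.2 z.2 w.1) :=
              PT.nfE' m w.1 (by fun_prop) (by fun_prop)
            have h2 : PT b (fun z : (β × α) × ℕ => nfE m z.1.2 z.2 w.2) :=
              PT.nfE' m w.2 (by fun_prop) (by fun_prop)
            fun_prop)
        convert this using 2 with z
        rw [List.map_eq_flatMap]
  · refine PT.map' (m := b) (l := fun a => List.range (E a).length)
      (f := fun z : β × ℕ => ((((E z.1).getD z.2 default).1, z.2, 0),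
        (((E z.1).getD z.2 default).2, z.2, 0))) (by fun_prop) ?_
    have : PT b (fun z : β × ℕ => E z.1) := h.comp' PT.fst
    have h2 : PT b (fun z : β × ℕ => (E z.1).getD z.2 default) :=
      PT.getD' (by fun_prop) this (by fun_prop)
    fun_prop

theorem nfE_zero (hm : 0 < m) (v : α) (i : ℕ) : nfE m v i 0 = (v, i, 0) := by
  simp [nfE, hm.ne]

theorem nfE_last (v : α) (i : ℕ) : nfE m v i m = (v, i + 1, 0) := by
  simp [nfE]

theorem nfE_of_ne {x : ℕ} (hx : x ≠ m) (v : α) (i : ℕ) : nfE m v i x = (v, i, x) := by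
  simp [nfE, hx]

/-- The two ways of writing a vertex. -/
theorem nfE_eq {v w : α} {i j x y : ℕ} (h : nfE m v i x = nfE m w j y) :
    v = w ∧ ((i = j ∧ x = y) ∨ (j = i + 1 ∧ x = m ∧ y = 0) ∨ (i = j + 1 ∧ x = 0 ∧ y = m)) := by
  unfold nfE at h
  split_ifs at h with h1 h2 h2
  · simp only [Prod.mk.injEq] at h
    exact ⟨h.1, Or.inl ⟨by omega, by omega⟩⟩
  · simp only [Prod.mk.injEq] at h
    exact ⟨h.1, Or.inr (Or.inl ⟨by omega, h1, by omega⟩)⟩
  · simp only [Prod.mk.injEq] at h
    exact ⟨h.1, Or.inr (Or.inr ⟨by omega, by omega, h2⟩)⟩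
  · simp only [Prod.mk.injEq] at h
    exact ⟨h.1, Or.inl ⟨h.2.1, h.2.2⟩⟩

theorem nfE_injective (hm : 0 < m) (v : α) (i : ℕ) : Function.Injective (nfE m v i) := by
  intro x y h
  rcases (nfE_eq h).2 with h1 | h1 | h1 <;> omega

/-- The endpoint number `0` or `1` of the edge number `i`. -/
def tmE [Inhabited α] (E : List (α × α)) (i : ℕ) (b : Bool) : FE α :=
  (if b then (E.getD i default).2 else (E.getD i default).1, i, 0)

variable [Inhabited α] {E : List (α × α)}

/-- Block edges. -/
def BlkE (gl : List (ℕ × ℕ)) (m : ℕ) (v : α) (i : ℕ) (a b : FE α) : Prop :=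
  ∃ x y, (relG gl).Adj x y ∧ a = nfE m v i x ∧ b = nfE m v i y

/-- Adjacency in the big graph. -/
theorem bigE_adj (hm : 0 < m) (hE : ∀ e ∈ E, e.1 ≠ e.2) {a b : FE α} :
    (relG (bigE gl m E)).Adj a b ↔
    (∃ v, (∃ e ∈ E, v = e.1 ∨ v = e.2) ∧ ∃ i < E.length, BlkE gl m v i a b) ∨
    (∃ i < E.length, ∃ t : Bool, a = tmE E i t ∧ b = tmE E i (!t)) := by
  have hmem : ∀ a b : FE α, (a, b) ∈ bigE gl m E ↔
      (∃ v, (∃ e ∈ E, v = e.1 ∨ v = e.2) ∧ ∃ i < E.length, ∃ z ∈ gl,
        a = nfE m v i z.1 ∧ b = nfE m v i z.2) ∨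
      (∃ i < E.length, a = tmE E i false ∧ b = tmE E i true) := by
    intro a b
    simp only [bigE, List.mem_append, List.mem_flatMap, List.mem_map, List.mem_range,
      List.mem_cons, List.not_mem_nil, or_false, Prod.mk.injEq, tmE, Bool.false_eq_true,
      if_false, if_true]
    refine or_congr ?_ ?_
    · refine exists_congr fun v => and_congr Iff.rfl (exists_congr fun i => and_congr Iff.rfl
        (exists_congr fun z => and_congr Iff.rfl ?_))
      exact and_congr eq_comm eq_comm
    · exact exists_congr fun i => and_congr Iff.rfl (and_congr eq_comm eq_comm)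
  constructor
  · rintro ⟨hne, h | h⟩
    · rcases (hmem _ _).1 h with ⟨v, hv, i, hi, z, hz, ha, hb⟩ | ⟨i, hi, ha, hb⟩
      · refine Or.inl ⟨v, hv, i, hi, z.1, z.2, ⟨?_, Or.inl hz⟩, ha, hb⟩
        intro h1
        exact hne (by rw [ha, hb, h1])
      · exact Or.inr ⟨i, hi, false, ha, hb⟩
    · rcases (hmem _ _).1 h with ⟨v, hv, i, hi, z, hz, ha, hb⟩ | ⟨i, hi, ha, hb⟩
      · refine Or.inl ⟨v, hv, i, hi, z.2, z.1, ⟨?_, Or.inr hz⟩, hb, ha⟩
        intro h1
        exact hne (by rw [ha, hb, h1])
      · exact Or.inr ⟨i, hi, true, hb, ha⟩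
  · rintro (⟨v, hv, i, hi, x, y, hxy, ha, hb⟩ | ⟨i, hi, t, ha, hb⟩)
    · have hne : a ≠ b := by
        rw [ha, hb]
        exact fun h => hxy.1 (nfE_injective hm v i h)
      rcases hxy.2 with h | h
      · exact ⟨hne, Or.inl ((hmem _ _).2 (Or.inl ⟨v, hv, i, hi, (x, y), h, ha, hb⟩))⟩
      · exact ⟨hne, Or.inr ((hmem _ _).2 (Or.inl ⟨v, hv, i, hi, (y, x), h, hb, ha⟩))⟩
    · have hne := hE _ (getD_mem hi)
      cases t with
      | false =>
        refine ⟨?_, Or.inl ((hmem _ _).2 (Or.inr ⟨i, hi, ha, hb⟩))⟩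
        rw [ha, hb]
        simp only [tmE, Bool.not_false, if_true, Bool.false_eq_true, if_false]
        intro h
        exact hne (congrArg Prod.fst h)
      | true =>
        refine ⟨?_, Or.inr ((hmem _ _).2 (Or.inr ⟨i, hi, hb, ha⟩))⟩
        rw [ha, hb]
        simp only [tmE, Bool.not_true, if_true, Bool.false_eq_true, if_false]
        intro h
        exact hne (congrArg Prod.fst h).symm

omit [Inhabited α] in
theorem gl_finite (gl : List (ℕ × ℕ)) (x : ℕ) : ((relG gl).neighborSet x).Finite := by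
  refine (Set.Finite.subset (List.finite_toSet (gl.map Prod.fst ++ gl.map Prod.snd)) ?_)
  intro y hy
  rw [SimpleGraph.mem_neighborSet] at hy
  rw [Set.mem_setOf_eq, List.mem_append, List.mem_map, List.mem_map]
  rcases hy.2 with h | h
  · exact Or.inr ⟨_, h, rfl⟩
  · exact Or.inl ⟨_, h, rfl⟩

/-- Degrees. -/
theorem bigE_deg (hH : EqG k D m gl F) (hE : ∀ e ∈ E, e.1 ≠ e.2) :
    MaxDegLE (relG (bigE gl m E)) D := by
  classical
  rintro ⟨v, i, x⟩
  by_cases hx : x = 0
  · subst hx
    set S : Set (FE α) := (nfE m v i '' (relG gl).neighborSet 0) ∪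
      (nfE m v (i - 1) '' (relG gl).neighborSet m) ∪
      {tmE E i (if v = (E.getD i default).1 then true else false)} with hS
    have hfin : S.Finite := by
      refine Set.Finite.union (Set.Finite.union ?_ ?_) (Set.finite_singleton _)
      · exact (gl_finite gl _).image _
      · exact (gl_finite gl _).image _
    have hsub : (relG (bigE gl m E)).neighborSet (v, i, 0) ⊆ S := by
      intro b hb
      rw [SimpleGraph.mem_neighborSet, bigE_adj hH.pos hE] at hb
      rcases hb with ⟨w, _, j, _, x', y, hxy, ha, hb⟩ | ⟨j, hj, t, ha, hb⟩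
      · rw [← nfE_zero hH.pos] at ha
        obtain ⟨rfl, h | h | h⟩ := nfE_eq ha
        · obtain ⟨rfl, rfl⟩ := h
          exact Or.inl (Or.inl ⟨y, hxy, hb.symm⟩)
        · have := hH.pos
          omega
        · obtain ⟨rfl, _, rfl⟩ := h
          exact Or.inl (Or.inr ⟨y, hxy, by rw [hb]; simp⟩)
      · refine Or.inr ?_
        have hne := hE _ (getD_mem hj)
        simp only [tmE, Prod.mk.injEq] at ha
        obtain ⟨hv, rfl, _⟩ := ha
        rw [Set.mem_singleton_iff, hb]
        cases t with
        | false =>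
          simp only [Bool.false_eq_true, if_false] at hv
          rw [if_pos hv]
          rfl
        | true =>
          simp only [if_true] at hv
          have : v ≠ (E.getD i default).1 := by
            rw [hv]; exact hne.symm
          rw [if_neg this]
          rfl
    refine ⟨hfin.subset hsub, (Set.ncard_le_ncard hsub hfin).trans ?_⟩
    refine (Set.ncard_union_le _ _).trans ?_
    rw [Set.ncard_singleton]
    have h1 := Set.ncard_union_le (nfE m v i '' (relG gl).neighborSet 0)
      (nfE m v (i - 1) '' (relG gl).neighborSet m)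
    have h2 : (nfE m v i '' (relG gl).neighborSet 0).ncard ≤ ((relG gl).neighborSet 0).ncard :=
      Set.ncard_image_le (gl_finite gl _)
    have h3 : (nfE m v (i - 1) '' (relG gl).neighborSet m).ncard ≤
        ((relG gl).neighborSet m).ncard := Set.ncard_image_le (gl_finite gl _)
    have h4 := hH.deg0
    omega
  · by_cases hxm : x = m
    · -- no such vertex
      have hsub : (relG (bigE gl m E)).neighborSet (v, i, x) ⊆ ∅ := by
        intro b hb
        rw [SimpleGraph.mem_neighborSet, bigE_adj hH.pos hE] at hb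
        rcases hb with ⟨w, _, j, _, x', y, hxy, ha, hb⟩ | ⟨j, hj, t, ha, hb⟩
        · unfold nfE at ha
          split_ifs at ha with h1
          · simp only [Prod.mk.injEq] at ha
            exact absurd ha.2.2 hx
          · simp only [Prod.mk.injEq] at ha
            exact absurd (ha.2.2.symm.trans hxm) h1
        · simp only [tmE, Prod.mk.injEq] at ha
          exact absurd ha.2.2 hx
      rw [Set.subset_empty_iff] at hsub
      rw [hsub]
      exact ⟨Set.finite_empty, by rw [Set.ncard_empty]; exact Nat.zero_le _⟩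
    · have hsub : (relG (bigE gl m E)).neighborSet (v, i, x) ⊆
          nfE m v i '' (relG gl).neighborSet x := by
        intro b hb
        rw [SimpleGraph.mem_neighborSet, bigE_adj hH.pos hE] at hb
        rcases hb with ⟨w, _, j, _, x', y, hxy, ha, hb⟩ | ⟨j, hj, t, ha, hb⟩
        · rw [← nfE_of_ne hxm] at ha
          obtain ⟨rfl, h | h | h⟩ := nfE_eq ha
          · obtain ⟨rfl, rfl⟩ := h
            exact ⟨y, hxy, hb.symm⟩
          · exact absurd h.2.1 hxm
          · exact absurd h.2.1 hx
        · simp only [tmE, Prod.mk.injEq] at ha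
          exact absurd ha.2.2 hx
      have hfin : (nfE m v i '' (relG gl).neighborSet x).Finite := (gl_finite gl _).image _
      exact ⟨hfin.subset hsub, (Set.ncard_le_ncard hsub hfin).trans
        ((Set.ncard_image_le (gl_finite gl _)).trans (hH.deg x hx hxm))⟩

/-- Soundness. -/
theorem bigE_sound (hH : EqG k D m gl F) (hE : ∀ e ∈ E, e.1 ≠ e.2)
    (h : StarColourable k (relG (bigE gl m E))) : EColourable k E := by
  obtain ⟨g, hg1, hg2⟩ := h
  have key : ∀ v, (∃ e ∈ E, v = e.1 ∨ v = e.2) → ∀ i < E.length,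
      g (v, i + 1, 0) = g (v, i, 0) := by
    intro v hv i hi
    have hadj : ∀ x y, (relG gl).Adj x y →
        (relG (bigE gl m E)).Adj (nfE m v i x) (nfE m v i y) := fun x y hxy =>
      (bigE_adj hH.pos hE).2 (Or.inl ⟨v, hv, i, hi, x, y, hxy, rfl, rfl⟩)
    have hinj := nfE_injective (α := α) hH.pos v i
    have hstar : IsStar (relG gl) (fun x => g (nfE m v i x)) := by
      refine ⟨fun x y hxy => hg1 _ _ (hadj x y hxy), ?_⟩
      intro a b c d hab hbc hcd hac had hbd
      exact hg2 _ _ _ _ (hadj _ _ hab) (hadj _ _ hbc) (hadj _ _ hcd)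
        (fun h => hac (hinj h)) (fun h => had (hinj h)) (fun h => hbd (hinj h))
    have := hH.uniq _ hstar
    simp only [nfE_zero hH.pos, nfE_last] at this
    exact this.symm
  have key2 : ∀ v, (∃ e ∈ E, v = e.1 ∨ v = e.2) → ∀ i ≤ E.length,
      g (v, i, 0) = g (v, 0, 0) := by
    intro v hv i
    induction i with
    | zero => intro _; rfl
    | succ i ih => intro hi; rw [key v hv i hi, ih (by omega)]
  refine ⟨fun v => g (v, 0, 0), ?_⟩
  intro e he
  obtain ⟨i, hi, hie⟩ := List.getElem_of_mem he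
  have hget : E.getD i default = e := by rw [List.getD_eq_getElem _ _ hi, hie]
  have hadj : (relG (bigE gl m E)).Adj (tmE E i false) (tmE E i true) :=
    (bigE_adj hH.pos hE).2 (Or.inr ⟨i, hi, false, rfl, rfl⟩)
  have := hg1 _ _ hadj
  simp only [tmE, Bool.false_eq_true, if_false, if_true, hget] at this
  rw [key2 e.1 ⟨e, he, Or.inl rfl⟩ i hi.le, key2 e.2 ⟨e, he, Or.inr rfl⟩ i hi.le] at this
  exact this

end

end Pool.Agent.H82.SF
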