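import Pool.Agent.H82.SF.Red

/-!
# The reduction with equality gadgets: completeness; NP-completeness
-/

set_option autoImplicit false

namespace Pool.Agent.H82.SF

open Pool.Agent.PPS Pool.Agent.H64.Cook Pool.Agent.H79.Thr

section

variable {α : Type} {k D m : ℕ} {gl : List (ℕ × ℕ)} {F : Fin k → ℕ → Fin k} [Inhabited α]
  {E : List (α × α)}

theorem alt_of_card {k : ℕ} {a b c d : Fin k} (hab : a ≠ b) (hbc : b ≠ c) (hcd : c ≠ d)
    (h : ¬ 2 < ({a, b, c, d} : Finset (Fin k)).card) : a = c ∧ b = d := by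
  constructor
  · by_contra h1
    apply h
    have h2 : ({a, b, c} : Finset (Fin k)).card = 3 := by
      rw [Finset.card_eq_three]
      exact ⟨_, _, _, hab, h1, hbc, rfl⟩
    have h3 : ({a, b, c} : Finset (Fin k)) ⊆ {a, b, c, d} := by
      intro z hz
      simp only [Finset.mem_insert, Finset.mem_singleton] at hz ⊢
      tauto
    have := Finset.card_le_card h3
    omega
  · by_contra h1
    apply h
    have h2 : ({b, c, d} : Finset (Fin k)).card = 3 := by
      rw [Finset.card_eq_three]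
      exact ⟨_, _, _, hbc, h1, hcd, rfl⟩
    have h3 : ({b, c, d} : Finset (Fin k)) ⊆ {a, b, c, d} := by
      intro z hz
      simp only [Finset.mem_insert, Finset.mem_singleton] at hz ⊢
      tauto
    have := Finset.card_le_card h3
    omega

theorem card_of_alt {k : ℕ} {a b c d : Fin k} (h1 : a = c) (h2 : b = d) :
    ¬ 2 < ({a, b, c, d} : Finset (Fin k)).card := by
  rw [h1, h2]
  have h3 : ({c, d, c, d} : Finset (Fin k)) = {c, d} := by
    ext x
    simp only [Finset.mem_insert, Finset.mem_singleton]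
    tauto
  rw [h3]
  exact not_lt.2 Finset.card_le_two

/-- The neighbours of an inner vertex of a block. -/
theorem inner_adj (hm : 0 < m) (hE : ∀ e ∈ E, e.1 ≠ e.2) {v : α} {i y : ℕ} (h0 : y ≠ 0)
    (h1 : y ≠ m) {a : FE α} (h : (relG (bigE gl m E)).Adj (nfE m v i y) a) :
    ∃ w, (relG gl).Adj y w ∧ a = nfE m v i w := by
  rcases (bigE_adj hm hE).1 h with ⟨v', _, i', _, x', w', hxy, ha, hb⟩ | ⟨j, hj, t, ha, hb⟩
  · obtain ⟨rfl, h2 | h2 | h2⟩ := nfE_eq ha
    · obtain ⟨rfl, rfl⟩ := h2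
      exact ⟨w', hxy, hb⟩
    · exact absurd h2.2.1 h1
    · exact absurd h2.2.1 h0
  · rw [nfE_of_ne h1] at ha
    simp only [tmE, Prod.mk.injEq] at ha
    exact absurd ha.2.2 h0

/-- The neighbours of a terminal. -/
theorem outer_adj (hm : 0 < m) (hE : ∀ e ∈ E, e.1 ≠ e.2) {v : α} {j : ℕ} {a : FE α}
    (h : (relG (bigE gl m E)).Adj (v, j, 0) a) :
    (∃ i t x, (t = 0 ∨ t = m) ∧ (relG gl).Adj t x ∧ a = nfE m v i x) ∨
      (j < E.length ∧ ∃ s : Bool, (v, j, 0) = tmE E j s ∧ a = tmE E j (!s)) := by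
  rcases (bigE_adj hm hE).1 h with ⟨v', _, i', _, x', w', hxy, ha, hb⟩ | ⟨i, hi, t, ha, hb⟩
  · left
    rw [← nfE_zero hm] at ha
    obtain ⟨rfl, h2 | h2 | h2⟩ := nfE_eq ha
    · obtain ⟨h3, h4⟩ := h2
      rw [← h4] at hxy
      exact ⟨_, 0, w', Or.inl rfl, hxy, hb⟩
    · omega
    · obtain ⟨_, _, h4⟩ := h2
      rw [h4] at hxy
      exact ⟨i', m, w', Or.inr rfl, hxy, hb⟩
  · right
    have hij : i = j := by
      simp only [tmE, Prod.mk.injEq] at ha
      exact ha.2.1.symm
    subst hij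
    exact ⟨hi, t, ha, hb⟩

/-- Completeness. -/
theorem bigE_complete (hH : EqG k D m gl F) (hE : ∀ e ∈ E, e.1 ≠ e.2) (h : EColourable k E) :
    StarColourable k (relG (bigE gl m E)) := by
  obtain ⟨h, hh⟩ := h
  obtain ⟨col, hcoldef⟩ : ∃ col : FE α → Fin k, col = fun t => F (h t.1) t.2.2 := ⟨_, rfl⟩
  have hcol : ∀ v i x, col (nfE m v i x) = F (h v) x := by
    intro v i x
    rw [hcoldef]
    unfold nfE
    split_ifs with h1
    · rw [h1]
      exact (hH.zero _).trans (hH.last _).symm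
    · rfl
  have hcol0 : ∀ v i, col (v, i, 0) = h v := by
    intro v i
    rw [hcoldef]
    exact hH.zero _
  have h0m : ¬ (relG gl).Adj 0 m := by
    intro h1
    have h2 := (hH.star (h default)).1 0 m h1
    rw [hH.zero, hH.last] at h2
    exact h2 rfl
  have hterm : ∀ j, j < E.length → ∀ s : Bool, ∀ v w, (v, j, 0) = tmE E j s →
      (w, j, 0) = tmE E j (!s) → h v ≠ h w := by
    intro j hj s v w h1 h2
    have h3 := hh _ (getD_mem hj)
    simp only [tmE, Prod.mk.injEq, and_true] at h1 h2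
    rw [h1, h2]
    cases s with
    | false => simpa using h3
    | true => simpa using h3.symm
  have hprop : IsCol (relG (bigE gl m E)) col := by
    intro a b hab
    rcases (bigE_adj hH.pos hE).1 hab with ⟨v, _, i, _, x, y, hxy, ha, hb⟩ | ⟨i, hi, t, ha, hb⟩
    · rw [ha, hb, hcol, hcol]
      exact (hH.star _).1 x y hxy
    · have h1 : a = (a.1, i, 0) := by rw [ha]; rfl
      have h2 : b = (b.1, i, 0) := by rw [hb]; rfl
      rw [h1, h2, hcol0, hcol0]
      exact hterm i hi t _ _ (h1 ▸ ha) (h2 ▸ hb)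
  refine ⟨col, hprop, ?_⟩
  intro a b c d hab hbc hcd hac had hbd
  by_contra hcard
  obtain ⟨e1, e2⟩ := alt_of_card (hprop a b hab) (hprop b c hbc) (hprop c d hcd) hcard
  rcases (bigE_adj hH.pos hE).1 hbc with ⟨v, _, i, _, y, x, hyx, hb, hc⟩ | ⟨j, hj, t, hb, hc⟩
  · -- a block edge
    have hinj := nfE_injective (α := α) hH.pos v i
    -- a terminal with a neighbour in the block
    have key : ∀ {a b c d : FE α} {y x : ℕ}, (relG (bigE gl m E)).Adj c d → b ≠ d →
        (relG gl).Adj y x → b = nfE m v i y → c = nfE m v i x → (y = 0 ∨ y = m) →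
        col b ≠ col d := by
      intro a b c d y x hcd hbd hyx hb hc hy
      have hx0 : x ≠ 0 := by
        rintro rfl
        rcases hy with rfl | rfl
        · exact hyx.ne rfl
        · exact h0m hyx.symm
      have hxm : x ≠ m := by
        rintro rfl
        rcases hy with rfl | rfl
        · exact h0m hyx
        · exact hyx.ne rfl
      rw [hc] at hcd
      obtain ⟨w, hw, hd⟩ := inner_adj hH.pos hE hx0 hxm hcd
      have hwy : w ≠ y := by
        rintro rfl
        exact hbd (hb.trans hd.symm)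
      have h1 := hH.A (h v) y hy x w hyx hw hwy
      rw [hb, hd, hcol, hcol]
      have h2 : F (h v) y = h v := by
        rcases hy with rfl | rfl
        · exact hH.zero _
        · exact hH.last _
      rw [h2]
      exact h1.symm
    have hy : ¬ (y = 0 ∨ y = m) := fun hy => key (a := a) hcd hbd hyx hb hc hy e2
    have hx : ¬ (x = 0 ∨ x = m) := fun hx =>
      key (a := a) (b := c) (c := b) (d := a) hab.symm hac.symm hyx.symm hc hb hx e1.symm
    push Not at hy hx
    have hab' := hab.symm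
    have hcd' := hcd
    rw [hb] at hab'
    rw [hc] at hcd'
    obtain ⟨w, hw, ha⟩ := inner_adj hH.pos hE hy.1 hy.2 hab'
    obtain ⟨w', hw', hd⟩ := inner_adj hH.pos hE hx.1 hx.2 hcd'
    rw [ha, hb, hc, hd, hcol, hcol, hcol, hcol] at hcard
    refine hcard ((hH.star (h v)).2 w y x w' hw.symm hyx hw' ?_ ?_ ?_)
    · rintro rfl
      exact hac (ha.trans hc.symm)
    · rintro rfl
      exact had (ha.trans hd.symm)
    · rintro rfl
      exact hbd (hb.trans hd.symm)
  · -- a terminal edge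
    obtain ⟨v, hv⟩ : ∃ v, b = (v, j, 0) := ⟨b.1, by rw [hb]; rfl⟩
    obtain ⟨w, hw⟩ : ∃ w, c = (w, j, 0) := ⟨c.1, by rw [hc]; rfl⟩
    have hvw : h v ≠ h w := hterm j hj t v w (hv ▸ hb) (hw ▸ hc)
    have hab' := hab.symm
    have hcd' := hcd
    rw [hv] at hab'
    rw [hw] at hcd'
    have htt : ∀ s : Bool, (v, j, 0) = tmE E j s → s = t := by
      intro s hs
      by_contra hst
      have h1 : s = !t := by
        cases s <;> cases t <;> simp_all
      have h2 : (v, j, 0) = (w, j, 0) := by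
        rw [hs, h1, ← hc, hw]
      exact hvw (congrArg h (Prod.ext_iff.1 h2).1)
    have htt' : ∀ s : Bool, (w, j, 0) = tmE E j s → s = !t := by
      intro s hs
      by_contra hst
      have h1 : s = t := by
        cases s <;> cases t <;> simp_all
      have h2 : (w, j, 0) = (v, j, 0) := by
        rw [hs, h1, ← hb, hv]
      exact hvw (congrArg h (Prod.ext_iff.1 h2).1).symm
    rcases outer_adj hH.pos hE hab' with ⟨i, s, x, hs, hsx, ha⟩ | ⟨_, s, hs, ha⟩
    · rcases outer_adj hH.pos hE hcd' with ⟨i', s', x', hs', hsx', hd⟩ | ⟨_, s, hs, hd⟩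
      · rw [ha, hcol, hw, hcol0] at e1
        rw [hv, hcol0, hd, hcol] at e2
        exact hH.B (h v) (h w) hvw s s' hs hs' x x' hsx hsx' e1 e2.symm
      · rw [htt' s hs, Bool.not_not, ← hb] at hd
        exact hbd hd.symm
    · rw [htt s hs, ← hc] at ha
      exact hac ha

end

/-- **NP-completeness from an equality gadget.** -/
theorem npc_of_gadget {k D m : ℕ} {gl : List (ℕ × ℕ)} {F : Fin k → ℕ → Fin k} (hk : 3 ≤ k)
    (hH : EqG k D m gl F) {d : ℕ} (hd : D ≤ d) : NPCompleteOn d (fun _ G => StarColourable k G) := by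
  classical
  refine ⟨mem_star k d, fun L hL => ?_⟩
  obtain ⟨φ, hφ, h⟩ := hardk (k := k) hk hL
  refine ⟨fun x => mat (bigE gl m (φ x)), ?_, fun x => ?_⟩
  · rw [mem_FP_iff]
    exact PT.mat' (PT.bigE' gl m hφ)
  · obtain ⟨n, G, h1, h2, h3, -⟩ := mat_spec (bigE gl m (φ x))
    have hdeg := h2 _ (bigE_deg hH (h x).1)
    refine ⟨n, G, h1, fun v => ⟨(hdeg v).1, (hdeg v).2.trans hd⟩, ?_⟩
    rw [(h x).2]
    change EColourable k (φ x) ↔ StarColourable k G
    rw [h3 k (by omega)]
    exact ⟨bigE_complete hH (h x).1, bigE_sound hH (h x).1⟩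

end Pool.Agent.H82.SF
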